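import Pool.Agent.Lib.MP_4d8715_gt.KR.E.Main
import Pool.Agent.Lib.MP_4d8715_gt.KR.R.Facts
import Pool.Agent.Lib.MP_4d8715_gt.KR.N.Gamma
import Pool.Agent.Lib.MP_4d8715_gt.KR.N.Null
import Pool.Agent.Lib.MP_4d8715_gt.KR.Z.Main

/-!
# Krawczyk's question has a positive answer

There is a model of ZFC in which there is an uncountable set of reals with property `S₁(Ω, Γ)` and in
which the product of every set of reals with property `S₁(Ω, Γ)` with every set of reals of Hausdorff
dimension zero has Hausdorff dimension zero.

`Kr.Krawczyk E` is the statement that (i) and (ii) hold, read in the structure `(M, E)`; it only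
quantifies over elements of `M`, and `φ` is the corresponding sentence of the language of set theory.

The model is the two-valued quotient of the Boolean-valued model over the regular open algebra of a
finite support iteration, indexed by the ordinals of the lowest universe, of (Cohen forcing) × (the
forcing which localizes the Cantor space by slaloms of width `L` at level `L`). The proof:
* (`C`, `R`) in the extension the principles KL (there is an uncountable `X ⊆ P(ω)` such that only
  countably many elements of `X` are dominated by any given function) and TC (thin sets are captured by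
  slaloms) hold;
* (`A`, `N`) KL gives a tower which is an uncountable set with property `S₁(Ω, Γ)`; by TC all sets with
  this property are captured, so that their products with sets of Hausdorff dimension zero have
  Hausdorff dimension zero;
* (`Z`) the Boolean-valued model satisfies ZFC, and (`E`) the value of the sentence `φ` is computed.

That the covering conditions used in `Kr.Krawczyk` for `dim_H Y = 0` and `dim_H (X × Y) = 0` agree with
Mathlib's `dimH` for sets of real numbers is proved in `D/Adequacy.lean`.
-/

namespace Pool.Agent.Results.MP_4d8715_gt.KrawczykConsistent

open Pool.Agent.Lib.MP_4d8715_gt.KR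

/-- There is a sentence `φ` of the language of set theory which says that (i) there is an uncountable
set of reals satisfying `S₁(Ω, Γ)` and (ii) for all sets `X`, `Y` of reals such that `X` satisfies
`S₁(Ω, Γ)` and `Y` has Hausdorff dimension zero, `X × Y` has Hausdorff dimension zero; and there is a
model of ZFC in which `φ` holds. -/
theorem result : ∃ φ : Fml 0,
    (∀ (M : Type 2) (E : M → M → Prop), Fml.Sat E φ ![] ↔ Kr.Krawczyk E) ∧
    ∃ (M : Type 2) (E : M → M → Prop), (∀ ψ ∈ Fml.ZFC, Fml.Sat E ψ ![]) ∧ Fml.Sat E φ ![] := by
  obtain ⟨M, E, hZ, hM⟩ := exists_model_ZFC (RO Cond)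
  exact ⟨Fml.fKrawczyk, fun M E => Fml.sat_fKrawczyk E, M, E, hZ,
    hM _ (bv_krawczyk (BSet.stI_eq_top klb_RO ccc_RO) (BSet.stII_eq_top tcb_RO))⟩

end Pool.Agent.Results.MP_4d8715_gt.KrawczykConsistent
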